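import Pool.Agent.RKotH.QBound

/-!
# Manipulability of Randomized King of the Hill on near-uniform tournaments

For every `ε ∈ [0, 1/2]` the largest gain of a pair of teams under Randomized King of the Hill,
on probabilistic tournaments with all win probabilities in `[1/2 - ε, 1/2 + ε]`, equals
`ε / 3 + 2 ε ^ 2 / 3`.
-/

namespace Pool.Agent.Results.MP_4400a6_co.KingOfHill

open Finset Pool.Agent.RKotH

/-- A match: a pair of distinct teams of `Fin n`, the smaller one listed first. -/
abbrev Match (n : ℕ) := {e : Fin n × Fin n // e.1 < e.2}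

/-- A deterministic tournament on the teams `Fin n`: the outcome of every match `{i, j}` with
`i < j`; the value `true` means that `i` wins, the value `false` that `j` wins. -/
abbrev Tournament (n : ℕ) := Match n → Bool

/-- `i` beats `j` in the deterministic tournament `ω`. -/
def Beats {n : ℕ} (ω : Tournament n) (i j : Fin n) : Prop :=
  (∃ h : i < j, ω ⟨(i, j), h⟩ = true) ∨ (∃ h : j < i, ω ⟨(j, i), h⟩ = false)

open Classical in
/-- The teams remaining after the team `h` of `R` has played every other team of `R`: all teams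
of `R` that lose one of these matches are removed (so `h` stays only if it wins all of them, and
`t ≠ h` stays only if it beats `h`). -/
noncomputable def survivors {n : ℕ} (ω : Tournament n) (R : Finset (Fin n)) (h : Fin n) :
    Finset (Fin n) :=
  R.filter fun t => (t = h ∧ ∀ s ∈ R, s ≠ h → Beats ω h s) ∨ (t ≠ h ∧ Beats ω t h)

lemma beats_or {n : ℕ} (ω : Tournament n) {i j : Fin n} (hij : i ≠ j) :
    Beats ω i j ∨ Beats ω j i := by
  unfold Beats
  rcases lt_or_gt_of_ne hij with h | h
  · rcases hω : ω ⟨(i, j), h⟩ with _ | _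
    · exact Or.inr (Or.inr ⟨h, hω⟩)
    · exact Or.inl (Or.inl ⟨h, hω⟩)
  · rcases hω : ω ⟨(j, i), h⟩ with _ | _
    · exact Or.inl (Or.inr ⟨h, hω⟩)
    · exact Or.inr (Or.inl ⟨h, hω⟩)

lemma beats_asymm {n : ℕ} (ω : Tournament n) {i j : Fin n} (h : Beats ω i j) :
    ¬ Beats ω j i := by
  unfold Beats at *
  rintro (⟨h1, h2⟩ | ⟨h1, h2⟩) <;> rcases h with ⟨h3, h4⟩ | ⟨h3, h4⟩
  · exact absurd h1 (not_lt_of_gt h3)
  · rw [h2] at h4
    exact absurd h4 (by decide)
  · rw [h2] at h4
    exact absurd h4 (by decide)
  · exact absurd h1 (not_lt_of_gt h3)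

lemma survivors_card_lt {n : ℕ} (ω : Tournament n) {R : Finset (Fin n)} {h : Fin n} (hh : h ∈ R)
    (hR : 1 < R.card) : (survivors ω R h).card < R.card := by
  classical
  refine Finset.card_lt_card (Finset.ssubset_iff_subset_ne.2 ⟨Finset.filter_subset _ _, ?_⟩)
  intro heq
  obtain ⟨t, ht, hth⟩ := Finset.exists_mem_ne hR h
  have h1 : t ∈ survivors ω R h := (Finset.ext_iff.1 heq t).2 ht
  have h2 : h ∈ survivors ω R h := (Finset.ext_iff.1 heq h).2 hh
  simp only [survivors, mem_filter] at h1 h2
  rcases h1.2 with h3 | h3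
  · exact hth h3.1
  · rcases h2.2 with h4 | h4
    · exact beats_asymm ω h3.2 (h4.2 t ht hth)
    · exact h4.1 rfl

/-- Randomized King of the Hill on the remaining set `R` of teams of the deterministic tournament
`ω`: the probability that team `i` is selected. While more than one team remains, `h ∈ R` is
picked uniformly at random, plays every other team of `R`, and all losers are removed; the last
remaining team is selected. -/
noncomputable def rkoth {n : ℕ} (ω : Tournament n) (R : Finset (Fin n)) (i : Fin n) : ℝ :=
  if _hR : 1 < R.card then (∑ h : R, rkoth ω (survivors ω R h.1) i) / R.card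
  else if i ∈ R then 1 else 0
termination_by R.card
decreasing_by exact survivors_card_lt ω h.2 _hR

/-- A probabilistic tournament: `p i j` is the probability that `i` beats `j` (for `i ≠ j`; the
diagonal values are irrelevant). -/
def IsProbTournament {n : ℕ} (p : Fin n → Fin n → ℝ) : Prop :=
  ∀ i j, i ≠ j → 0 ≤ p i j ∧ p i j + p j i = 1

/-- The probability of the deterministic tournament `ω` when all matches of the probabilistic
tournament `p` are drawn independently. -/
noncomputable def prob {n : ℕ} (p : Fin n → Fin n → ℝ) (ω : Tournament n) : ℝ :=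
  ∏ e : Match n, if ω e = true then p e.1.1 e.1.2 else p e.1.2 e.1.1

/-- The probability that Randomized King of the Hill selects team `i` on the probabilistic
tournament `p`. -/
noncomputable def sel {n : ℕ} (p : Fin n → Fin n → ℝ) (i : Fin n) : ℝ :=
  ∑ ω : Tournament n, prob p ω * rkoth ω Finset.univ i

/-- The set of all gains `r_u(T') + r_v(T') - r_u(T) - r_v(T)` for Randomized King of the Hill,
over all `n ≥ 2`, all probabilistic tournaments `T = p` on `n` teams with win probabilities in
`[1/2 - ε, 1/2 + ε]`, all pairs `u ≠ v` of teams and all `{u, v}`-adjacent `T' = p'`. -/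
def gains (ε : ℝ) : Set ℝ :=
  {a | ∃ n : ℕ, 2 ≤ n ∧ ∃ (p p' : Fin n → Fin n → ℝ) (u v : Fin n), u ≠ v ∧
    IsProbTournament p ∧ (∀ i j, i ≠ j → p i j ∈ Set.Icc (1 / 2 - ε) (1 / 2 + ε)) ∧
    IsProbTournament p' ∧
    (∀ i j, i ≠ j → ¬ ((i = u ∧ j = v) ∨ (i = v ∧ j = u)) → p' i j = p i j) ∧
    a = sel p' u + sel p' v - sel p u - sel p v}

/-! ### Product expectations -/

section Expect

variable {E : Type*} [Fintype E] [DecidableEq E]

/-- expectation with respect to a product weight -/
noncomputable def ExW (w : E → Bool → ℝ) (F : (E → Bool) → ℝ) : ℝ :=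
  ∑ ω : E → Bool, (∏ e, w e (ω e)) * F ω

lemma ExW_add (w : E → Bool → ℝ) (F G : (E → Bool) → ℝ) :
    ExW w (fun ω => F ω + G ω) = ExW w F + ExW w G := by
  unfold ExW
  rw [← Finset.sum_add_distrib]
  exact Finset.sum_congr rfl fun ω _ => by ring

lemma ExW_split (w : E → Bool → ℝ) (e : E) (hw : w e true + w e false = 1)
    (G : (E → Bool) → ℝ) (hG : ∀ ω b, G (Function.update ω e b) = G ω) (b : Bool) :
    ExW w (fun ω => if ω e = b then G ω else 0) = w e b * ExW w G := by
  set J : Bool → ℝ := fun b => ∑ ω : E → Bool,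
    if ω e = b then (∏ e' ∈ univ.erase e, w e' (ω e')) * G ω else 0 with hJ
  have h1 : ∀ b, ExW w (fun ω => if ω e = b then G ω else 0) = w e b * J b := by
    intro b
    unfold ExW
    rw [hJ, Finset.mul_sum]
    refine Finset.sum_congr rfl fun ω _ => ?_
    by_cases hb : ω e = b
    · simp only [hb, if_true]
      rw [← Finset.mul_prod_erase univ _ (Finset.mem_univ e), hb]
      ring
    · simp [hb]
  have hflip : Function.Involutive (fun ω : E → Bool => Function.update ω e (!ω e)) := by
    intro ω
    simp
  have h2 : ∀ b, J b = J (!b) := by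
    intro b
    rw [hJ]
    refine Fintype.sum_equiv (Function.Involutive.toPerm _ hflip) _ _ fun ω => ?_
    have e1 : Function.Involutive.toPerm _ hflip ω = Function.update ω e (!ω e) := rfl
    rw [e1, Function.update_self, hG]
    have e2 : ∏ e' ∈ univ.erase e, w e' (Function.update ω e (!ω e) e') =
        ∏ e' ∈ univ.erase e, w e' (ω e') := by
      refine Finset.prod_congr rfl fun e' he' => ?_
      rw [Function.update_of_ne (Finset.ne_of_mem_erase he')]
    rw [e2]
    have e3 : (ω e = b) ↔ ((!ω e) = !b) := by
      cases ω e <;> cases b <;> simp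
    by_cases hb : ω e = b
    · rw [if_pos hb, if_pos (e3.1 hb)]
    · rw [if_neg hb, if_neg (fun h => hb (e3.2 h))]
  have h3 : ExW w G = w e true * J true + w e false * J false := by
    rw [← h1, ← h1, ← ExW_add]
    unfold ExW
    refine Finset.sum_congr rfl fun ω _ => ?_
    congr 1
    rcases hb : ω e with _ | _ <;> simp [hb]
  have h4 : J true = J false := h2 true
  rw [h1, h3]
  cases b
  · rw [h4]
    linear_combination (- w e false * J false) * hw
  · rw [← h4]
    linear_combination (- w e true * J true) * hw

lemma ExW_one (w : E → Bool → ℝ) (hw : ∀ e, w e true + w e false = 1) :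
    ExW w (fun _ => 1) = 1 := by
  unfold ExW
  simp only [mul_one]
  have h := Finset.prod_univ_sum (fun _ : E => (Finset.univ : Finset Bool)) w
  rw [Fintype.piFinset_univ] at h
  rw [← h]
  refine Finset.prod_eq_one fun e _ => ?_
  rw [Fintype.sum_bool]
  exact hw e

end Expect

/-! ### Expectations over the matches -/

section Link

variable {n : ℕ}

/-- the weights of the outcomes of a match -/
noncomputable def wt (p : Fin n → Fin n → ℝ) (e : Match n) (b : Bool) : ℝ :=
  if b = true then p e.1.1 e.1.2 else p e.1.2 e.1.1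

/-- expectation over the matches of the probabilistic tournament `p` -/
noncomputable def Ex (p : Fin n → Fin n → ℝ) (F : Tournament n → ℝ) : ℝ :=
  ExW (wt p) F

lemma Ex_add (p : Fin n → Fin n → ℝ) (F G : Tournament n → ℝ) :
    Ex p (fun ω => F ω + G ω) = Ex p F + Ex p G := ExW_add _ _ _

lemma Ex_mul (p : Fin n → Fin n → ℝ) (c : ℝ) (G : Tournament n → ℝ) :
    Ex p (fun ω => c * G ω) = c * Ex p G := by
  unfold Ex ExW
  rw [Finset.mul_sum]
  exact Finset.sum_congr rfl fun ω _ => by ring

lemma Ex_sum (p : Fin n → Fin n → ℝ) {α : Type*} (s : Finset α) (F : α → Tournament n → ℝ) :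
    Ex p (fun ω => ∑ a ∈ s, F a ω) = ∑ a ∈ s, Ex p (F a) := by
  unfold Ex ExW
  rw [Finset.sum_comm]
  exact Finset.sum_congr rfl fun ω _ => by rw [Finset.mul_sum]

lemma wt_add {p : Fin n → Fin n → ℝ} (hp : IsProbTournament p) (e : Match n) :
    wt p e true + wt p e false = 1 := by
  unfold wt
  simpa using (hp e.1.1 e.1.2 (ne_of_lt e.2)).2

lemma Ex_const {p : Fin n → Fin n → ℝ} (hp : IsProbTournament p) (c : ℝ) :
    Ex p (fun _ => c) = c := by
  have h1 := Ex_mul p c (fun _ => 1)
  have h2 : Ex p (fun _ => 1) = 1 := ExW_one _ (wt_add hp)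
  rw [h2] at h1
  simpa using h1

/-- the outcomes of all matches but one determine `Beats` for all other pairs -/
lemma beats_update (ω : Tournament n) (e : Match n) (b : Bool) {i j : Fin n}
    (h : ¬ ((i = e.1.1 ∧ j = e.1.2) ∨ (i = e.1.2 ∧ j = e.1.1))) :
    Beats (Function.update ω e b) i j ↔ Beats ω i j := by
  unfold Beats
  have h1 : ∀ h' : i < j, Function.update ω e b ⟨(i, j), h'⟩ = ω ⟨(i, j), h'⟩ := by
    intro h'
    rw [Function.update_of_ne]
    rintro rfl
    exact h (Or.inl ⟨rfl, rfl⟩)
  have h2 : ∀ h' : j < i, Function.update ω e b ⟨(j, i), h'⟩ = ω ⟨(j, i), h'⟩ := by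
    intro h'
    rw [Function.update_of_ne]
    rintro rfl
    exact h (Or.inr ⟨rfl, rfl⟩)
  simp only [h1, h2]

open Classical in
lemma Ex_beats {p : Fin n → Fin n → ℝ} (hp : IsProbTournament p) {t h : Fin n} (hth : t ≠ h)
    (G : Tournament n → ℝ)
    (hG : ∀ ω ω', (∀ a b, ¬ ((a = t ∧ b = h) ∨ (a = h ∧ b = t)) → (Beats ω a b ↔ Beats ω' a b)) →
      G ω = G ω') :
    Ex p (fun ω => if Beats ω t h then G ω else 0) = p t h * Ex p G := by
  rcases lt_or_gt_of_ne hth with hlt | hlt
  · have e1 : ∀ ω : Tournament n, Beats ω t h ↔ ω ⟨(t, h), hlt⟩ = true := by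
      intro ω
      unfold Beats
      constructor
      · rintro (⟨_, h2⟩ | ⟨h1, _⟩)
        · exact h2
        · exact absurd h1 (not_lt_of_gt hlt)
      · intro h1
        exact Or.inl ⟨hlt, h1⟩
    have e2 := ExW_split (wt p) ⟨(t, h), hlt⟩ (wt_add hp _) G (fun ω b => hG _ _ fun a c hac => by
      refine beats_update ω _ b ?_
      exact hac) true
    unfold Ex
    simp only [e1]
    rw [e2]
    rfl
  · have e1 : ∀ ω : Tournament n, Beats ω t h ↔ ω ⟨(h, t), hlt⟩ = false := by
      intro ω
      unfold Beats
      constructor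
      · rintro (⟨h1, _⟩ | ⟨_, h2⟩)
        · exact absurd h1 (not_lt_of_gt hlt)
        · exact h2
      · intro h1
        exact Or.inr ⟨hlt, h1⟩
    have e2 := ExW_split (wt p) ⟨(h, t), hlt⟩ (wt_add hp _) G (fun ω b => hG _ _ fun a c hac => by
      refine beats_update ω _ b ?_
      intro h'
      exact hac h'.symm) false
    unfold Ex
    simp only [e1]
    rw [e2]
    rfl

open Classical in
/-- principle of deferred decisions for the matches of `h` -/
lemma Ex_filter {p : Fin n → Fin n → ℝ} (hp : IsProbTournament p) {h : Fin n}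
    (X : Finset (Fin n)) (hX : h ∉ X) (f : Finset (Fin n) → Tournament n → ℝ)
    (hf : ∀ S ⊆ X, ∀ ω ω', (∀ a b, a ≠ h → b ≠ h → (Beats ω a b ↔ Beats ω' a b)) →
      f S ω = f S ω') :
    Ex p (fun ω => f (X.filter fun t => Beats ω t h) ω) =
      Esub X (fun t => p t h) (fun S => Ex p (f S)) := by
  induction X using Finset.induction_on generalizing f with
  | empty => simp [Esub_empty]
  | insert t X ht ih =>
    have hth : t ≠ h := by
      rintro rfl
      exact hX (Finset.mem_insert_self _ _)
    have hX' : h ∉ X := fun h' => hX (Finset.mem_insert_of_mem h')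
    rw [Esub_insert ht]
    -- the two parts
    set G1 : Tournament n → ℝ := fun ω => f (insert t (X.filter fun t => Beats ω t h)) ω with hG1
    set G2 : Tournament n → ℝ := fun ω => f (X.filter fun t => Beats ω t h) ω with hG2
    have hdep : ∀ ω ω' : Tournament n,
        (∀ a b, ¬ ((a = t ∧ b = h) ∨ (a = h ∧ b = t)) → (Beats ω a b ↔ Beats ω' a b)) →
        (X.filter fun t => Beats ω t h) = X.filter fun t => Beats ω' t h := by
      intro ω ω' hω
      refine Finset.filter_congr fun a ha => ?_
      refine hω a h ?_
      rintro (⟨h1, _⟩ | ⟨h1, _⟩)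
      · exact ht (h1 ▸ ha)
      · exact hX' (h1 ▸ ha)
    have hdep2 : ∀ ω ω' : Tournament n,
        (∀ a b, ¬ ((a = t ∧ b = h) ∨ (a = h ∧ b = t)) → (Beats ω a b ↔ Beats ω' a b)) →
        (∀ a b, a ≠ h → b ≠ h → (Beats ω a b ↔ Beats ω' a b)) := by
      intro ω ω' hω a b ha hb
      refine hω a b ?_
      rintro (⟨_, h1⟩ | ⟨h1, _⟩)
      · exact hb h1
      · exact ha h1
    have hG1' : ∀ ω ω' : Tournament n,
        (∀ a b, ¬ ((a = t ∧ b = h) ∨ (a = h ∧ b = t)) → (Beats ω a b ↔ Beats ω' a b)) →
        G1 ω = G1 ω' := by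
      intro ω ω' hω
      simp only [hG1]
      rw [hdep ω ω' hω]
      exact hf _ (Finset.insert_subset_insert _ (Finset.filter_subset _ _)) _ _ (hdep2 _ _ hω)
    have hG2' : ∀ ω ω' : Tournament n,
        (∀ a b, ¬ ((a = t ∧ b = h) ∨ (a = h ∧ b = t)) → (Beats ω a b ↔ Beats ω' a b)) →
        G2 ω = G2 ω' := by
      intro ω ω' hω
      simp only [hG2]
      rw [hdep ω ω' hω]
      exact hf _ ((Finset.filter_subset _ _).trans (Finset.subset_insert _ _)) _ _ (hdep2 _ _ hω)
    have e1 : (fun ω : Tournament n => f ((insert t X).filter fun t => Beats ω t h) ω) =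
        fun ω => (if Beats ω t h then G1 ω else 0) +
          (G2 ω + (-1) * (if Beats ω t h then G2 ω else 0)) := by
      funext ω
      by_cases hb : Beats ω t h
      · simp [hG1, Finset.filter_insert, hb]
      · simp [hG2, Finset.filter_insert, hb]
    rw [e1, Ex_add, Ex_add, Ex_mul, Ex_beats hp hth G1 hG1', Ex_beats hp hth G2 hG2']
    have e2 := ih hX' (fun S => f (insert t S)) (fun S hS ω ω' hω =>
      hf _ (Finset.insert_subset_insert _ hS) ω ω' hω)
    have e3 := ih hX' f (fun S hS ω ω' hω => hf _ (hS.trans (Finset.subset_insert _ _)) ω ω' hω)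
    have e4 : Ex p G1 = Esub X (fun t => p t h) (fun S => Ex p (f (insert t S))) := e2
    have e5 : Ex p G2 = Esub X (fun t => p t h) (fun S => Ex p (f S)) := e3
    rw [e4, e5]
    ring

lemma survivors_subset (ω : Tournament n) (R : Finset (Fin n)) (h : Fin n) :
    survivors ω R h ⊆ R := by
  classical
  exact Finset.filter_subset _ _

lemma survivors_ssubset (ω : Tournament n) {R : Finset (Fin n)} {h : Fin n} (hh : h ∈ R)
    (hR : 1 < R.card) : survivors ω R h ⊂ R := by
  refine Finset.ssubset_iff_subset_ne.2 ⟨survivors_subset ω R h, ?_⟩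
  intro heq
  have := survivors_card_lt ω hh hR
  rw [heq] at this
  exact lt_irrefl _ this

lemma rkoth_card_le (ω : Tournament n) {R : Finset (Fin n)} (hR : ¬ 1 < R.card) (i : Fin n) :
    rkoth ω R i = if i ∈ R then 1 else 0 := by
  rw [rkoth, dif_neg hR]

lemma rkoth_card_gt (ω : Tournament n) {R : Finset (Fin n)} (hR : 1 < R.card) (i : Fin n) :
    (R.card : ℝ) * rkoth ω R i = ∑ h ∈ R, rkoth ω (survivors ω R h) i := by
  rw [rkoth, dif_pos hR]
  have h0 : (R.card : ℝ) ≠ 0 := by
    have : 0 < R.card := by omega
    positivity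
  rw [mul_div_cancel₀ _ h0]
  exact Finset.sum_coe_sort R (fun h => rkoth ω (survivors ω R h) i)

lemma rkoth_notMem (ω : Tournament n) {R : Finset (Fin n)} {i : Fin n} (hi : i ∉ R) :
    rkoth ω R i = 0 := by
  induction R using Finset.strongInduction with
  | H R ih =>
    by_cases hR : 1 < R.card
    · have h0 : (R.card : ℝ) ≠ 0 := by
        have : 0 < R.card := by omega
        positivity
      apply mul_left_cancel₀ h0
      rw [rkoth_card_gt ω hR, mul_zero]
      refine Finset.sum_eq_zero fun h hh => ?_
      exact ih _ (survivors_ssubset ω hh hR) fun h' => hi (survivors_subset ω R h h')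
    · rw [rkoth_card_le ω hR, if_neg hi]

lemma rkoth_congr {ω ω' : Tournament n} {R : Finset (Fin n)} (i : Fin n)
    (h : ∀ a ∈ R, ∀ b ∈ R, (Beats ω a b ↔ Beats ω' a b)) : rkoth ω R i = rkoth ω' R i := by
  induction R using Finset.strongInduction with
  | H R ih =>
    by_cases hR : 1 < R.card
    · have h0 : (R.card : ℝ) ≠ 0 := by
        have : 0 < R.card := by omega
        positivity
      apply mul_left_cancel₀ h0
      rw [rkoth_card_gt ω hR, rkoth_card_gt ω' hR]
      refine Finset.sum_congr rfl fun c hc => ?_
      have hs : survivors ω R c ⊆ R := survivors_subset ω R c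
      have heq : survivors ω' R c = survivors ω R c := by
        classical
        unfold survivors
        refine Finset.filter_congr fun t ht => ?_
        constructor
        · rintro (⟨h1, h2⟩ | ⟨h1, h2⟩)
          · exact Or.inl ⟨h1, fun s hs hsc => (h c hc s hs).2 (h2 s hs hsc)⟩
          · exact Or.inr ⟨h1, (h t ht c hc).2 h2⟩
        · rintro (⟨h1, h2⟩ | ⟨h1, h2⟩)
          · exact Or.inl ⟨h1, fun s hs hsc => (h c hc s hs).1 (h2 s hs hsc)⟩
          · exact Or.inr ⟨h1, (h t ht c hc).1 h2⟩
      rw [heq]
      exact ih _ (survivors_ssubset ω hc hR) fun a ha b hb => h a (hs ha) b (hs hb)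
    · rw [rkoth_card_le ω hR, rkoth_card_le ω' hR]

/-- the probability that `i` is selected when the remaining set is `R` -/
noncomputable def W (p : Fin n → Fin n → ℝ) (R : Finset (Fin n)) (i : Fin n) : ℝ :=
  Ex p (fun ω => rkoth ω R i)

lemma W_notMem (p : Fin n → Fin n → ℝ) {R : Finset (Fin n)} {i : Fin n} (hi : i ∉ R) :
    W p R i = 0 := by
  unfold W
  have : (fun ω : Tournament n => rkoth ω R i) = fun ω => 0 * rkoth ω R i := by
    funext ω
    rw [rkoth_notMem ω hi, mul_zero]
  rw [this, Ex_mul, zero_mul]

/-- the recursion for the selection probabilities -/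
lemma W_rec {p : Fin n → Fin n → ℝ} (hp : IsProbTournament p) (R : Finset (Fin n)) (i : Fin n) :
    (R.card : ℝ) * W p R i = ∑ h ∈ R, Esub (R.erase h) (fun t => p t h)
      (fun S => if S = ∅ then (if i = h then 1 else 0) else W p S i) := by
  classical
  by_cases hR : 1 < R.card
  · unfold W
    rw [← Ex_mul]
    have e1 : (fun ω : Tournament n => (R.card : ℝ) * rkoth ω R i) =
        fun ω => ∑ h ∈ R, rkoth ω (survivors ω R h) i := by
      funext ω
      exact rkoth_card_gt ω hR i
    rw [e1, Ex_sum]
    refine Finset.sum_congr rfl fun h hh => ?_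
    set f : Finset (Fin n) → Tournament n → ℝ := fun S ω =>
      if S = ∅ then (if i = h then 1 else 0) else rkoth ω S i with hf
    have e2 : (fun ω : Tournament n => rkoth ω (survivors ω R h) i) =
        fun ω => f ((R.erase h).filter fun t => Beats ω t h) ω := by
      funext ω
      simp only [hf]
      by_cases hemp : ((R.erase h).filter fun t => Beats ω t h) = ∅
      · rw [if_pos hemp]
        have e3 : survivors ω R h = {h} := by
          unfold survivors
          ext t
          simp only [mem_filter, mem_singleton]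
          constructor
          · rintro ⟨h1, ⟨h2, _⟩ | ⟨h2, h3⟩⟩
            · exact h2
            · exfalso
              have : t ∈ (R.erase h).filter fun t => Beats ω t h :=
                mem_filter.2 ⟨mem_erase.2 ⟨h2, h1⟩, h3⟩
              rw [hemp] at this
              exact Finset.notMem_empty _ this
          · rintro rfl
            refine ⟨hh, Or.inl ⟨rfl, fun s hs hst => ?_⟩⟩
            rcases beats_or ω hst with h4 | h4
            · exfalso
              have : s ∈ (R.erase t).filter fun t' => Beats ω t' t :=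
                mem_filter.2 ⟨mem_erase.2 ⟨hst, hs⟩, h4⟩
              rw [hemp] at this
              exact Finset.notMem_empty _ this
            · exact h4
        rw [e3, rkoth_card_le ω (by simp)]
        simp
      · rw [if_neg hemp]
        have e3 : survivors ω R h = (R.erase h).filter fun t => Beats ω t h := by
          unfold survivors
          ext t
          simp only [mem_filter, mem_erase]
          constructor
          · rintro ⟨h1, ⟨h2, h3⟩ | ⟨h2, h3⟩⟩
            · exfalso
              obtain ⟨s, hs⟩ := Finset.nonempty_iff_ne_empty.2 hemp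
              have hs' := mem_filter.1 hs
              have hs'' := mem_erase.1 hs'.1
              exact beats_asymm ω hs'.2 (h3 s hs''.2 hs''.1)
            · exact ⟨⟨h2, h1⟩, h3⟩
          · rintro ⟨⟨h1, h2⟩, h3⟩
            exact ⟨h2, Or.inr ⟨h1, h3⟩⟩
        rw [e3]
    rw [e2, Ex_filter hp (R.erase h) (Finset.notMem_erase h R) f]
    · refine Esub_congr (fun _ _ => rfl) fun S _ => ?_
      simp only [hf]
      by_cases hS : S = ∅
      · simp only [hS, if_true]
        exact Ex_const hp _
      · simp only [hS, if_false]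
    · intro S hS ω ω' hω
      simp only [hf]
      by_cases hS' : S = ∅
      · simp only [hS', if_true]
      · simp only [hS', if_false]
        refine rkoth_congr i fun a ha b hb => hω a b ?_ ?_
        · exact Finset.ne_of_mem_erase (hS ha)
        · exact Finset.ne_of_mem_erase (hS hb)
  · rcases Nat.eq_zero_or_pos R.card with h0 | h0
    · rw [Finset.card_eq_zero] at h0
      subst h0
      simp
    · have h1 : R.card = 1 := by omega
      obtain ⟨j, rfl⟩ := Finset.card_eq_one.1 h1
      simp only [Finset.card_singleton, Nat.cast_one, one_mul, Finset.sum_singleton,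
        Finset.erase_singleton, Esub_empty, if_true]
      unfold W
      have e1 : (fun ω : Tournament n => rkoth ω {j} i) = fun _ => if i = j then (1 : ℝ) else 0 := by
        funext ω
        rw [rkoth_card_le ω (by simp)]
        simp
      rw [e1, Ex_const hp]

lemma gw_congr' {ι : Type*} [DecidableEq ι] {x x' : ι → ℝ} {z z' : ι → ι → ℝ} {S : Finset ι}
    (h : ∀ i ∈ S, x i = x' i) (hz : ∀ t ∈ S, ∀ w ∈ S, t ≠ w → z t w = z' t w) :
    gw x z S = gw x' z' S := by
  induction S using Finset.strongInduction with
  | H S ih =>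
    have h0 : ((S.card : ℝ) + 1) ≠ 0 := by positivity
    apply mul_left_cancel₀ h0
    rw [gw_eq, gw_eq, Finset.prod_congr rfl h]
    congr 1
    refine Finset.sum_congr rfl fun w hw => ?_
    rw [h w hw]
    congr 1
    refine Esub_congr (fun t ht => hz t (Finset.mem_of_mem_erase ht) w hw
      (Finset.ne_of_mem_erase ht)) fun S' hS' => ?_
    have hlt : S' ⊂ S := lt_of_le_of_lt hS' (Finset.erase_ssubset hw)
    exact ih S' hlt (fun i hi => h i (hlt.1 hi)) (fun t ht w hw => hz t (hlt.1 ht) w (hlt.1 hw))

/-- one member of the pair against a set of other teams -/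
lemma W_single {p : Fin n → Fin n → ℝ} (hp : IsProbTournament p) {u : Fin n}
    {S : Finset (Fin n)} (hu : u ∉ S) : W p (insert u S) u = gw (p u) p S := by
  induction S using Finset.strongInduction with
  | H S ih =>
    have h0 : ((S.card : ℝ) + 1) ≠ 0 := by positivity
    apply mul_left_cancel₀ h0
    rw [gw_eq]
    have h1 := W_rec hp (insert u S) u
    rw [Finset.card_insert_of_notMem hu, Finset.sum_insert hu, Finset.erase_insert hu] at h1
    push_cast at h1
    rw [h1]
    congr 1
    · have e1 : Esub S (fun t => p t u) (fun S' => if S' = ∅ then (if u = u then (1 : ℝ) else 0)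
          else W p S' u) = Esub S (fun t => p t u) (fun S' => if S' = ∅ then 1 else 0) := by
        refine Esub_congr (fun _ _ => rfl) fun S' hS' => ?_
        by_cases h : S' = ∅
        · simp [h]
        · simp only [h, if_false]
          exact W_notMem p fun h' => hu (hS' h')
      rw [e1, Esub_ind_empty, one_mul]
      refine Finset.prod_congr rfl fun t ht => ?_
      have htu : t ≠ u := by
        rintro rfl
        exact hu ht
      have := (hp t u htu).2
      linarith
    · refine Finset.sum_congr rfl fun w hw => ?_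
      have hwu : w ≠ u := by
        rintro rfl
        exact hu hw
      have hu' : u ∉ S.erase w := fun h => hu (Finset.mem_of_mem_erase h)
      rw [Finset.erase_insert_of_ne hwu.symm, Esub_insert hu']
      have e1 : Esub (S.erase w) (fun t => p t w) (fun S' => if insert u S' = ∅ then
          (if u = w then (1 : ℝ) else 0) else W p (insert u S') u) =
          Esub (S.erase w) (fun t => p t w) (gw (p u) p) := by
        refine Esub_congr (fun _ _ => rfl) fun S' hS' => ?_
        rw [if_neg (Finset.insert_ne_empty u S')]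
        exact ih S' (lt_of_le_of_lt hS' (Finset.erase_ssubset hw)) fun h => hu' (hS' h)
      have e2 : Esub (S.erase w) (fun t => p t w) (fun S' => if S' = ∅ then
          (if u = w then (1 : ℝ) else 0) else W p S' u) = 0 := by
        refine (Esub_congr (fun _ _ => rfl) fun S' hS' => ?_).trans
          (Esub_const (S.erase w) (fun t => p t w) 0)
        by_cases h : S' = ∅
        · simp [h, hwu.symm]
        · simp only [h, if_false]
          exact W_notMem p fun h' => hu' (hS' h')
      rw [e1, e2]
      ring

/-- the probability that `u` or `v` is selected against the set `S` of other teams -/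
noncomputable def V (p : Fin n → Fin n → ℝ) (u v : Fin n) (S : Finset (Fin n)) : ℝ :=
  W p (insert u (insert v S)) u + W p (insert u (insert v S)) v

lemma V_rec {p : Fin n → Fin n → ℝ} (hp : IsProbTournament p) {u v : Fin n} (huv : u ≠ v)
    {S : Finset (Fin n)} (hu : u ∉ S) (hv : v ∉ S) :
    ((S.card : ℝ) + 2) * V p u v S =
      (p v u * Esub S (fun t => 1 - p u t) (gw (p v) p) + (1 - p v u) * ∏ t ∈ S, p u t) +
      (p u v * Esub S (fun t => 1 - p v t) (gw (p u) p) + (1 - p u v) * ∏ t ∈ S, p v t) +
      ∑ w ∈ S, (p u w * p v w * Esub (S.erase w) (fun t => p t w) (V p u v) +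
        (p u w * (1 - p v w) * Esub (S.erase w) (fun t => p t w) (gw (p u) p) +
         p v w * (1 - p u w) * Esub (S.erase w) (fun t => p t w) (gw (p v) p))) := by
  have hu' : u ∉ insert v S := by simp [huv, hu]
  have h1 := W_rec hp (insert u (insert v S)) u
  have h2 := W_rec hp (insert u (insert v S)) v
  have h3 : ((S.card : ℝ) + 2) * V p u v S =
      ∑ h ∈ insert u (insert v S), Esub ((insert u (insert v S)).erase h) (fun t => p t h)
        (fun S' => if S' = ∅ then ((if u = h then 1 else 0) + (if v = h then 1 else 0))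
          else W p S' u + W p S' v) := by
    have e : (((insert u (insert v S)).card : ℕ) : ℝ) = (S.card : ℝ) + 2 := by
      rw [Finset.card_insert_of_notMem hu', Finset.card_insert_of_notMem hv]
      push_cast
      ring
    rw [e] at h1 h2
    unfold V
    rw [mul_add, h1, h2, ← Finset.sum_add_distrib]
    refine Finset.sum_congr rfl fun h _ => ?_
    rw [← Esub_add]
    refine Esub_congr (fun _ _ => rfl) fun S' _ => ?_
    by_cases hS : S' = ∅ <;> simp [hS]
  rw [h3, Finset.sum_insert hu', Finset.sum_insert hv, ← add_assoc]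
  have hcompl : ∀ a b : Fin n, a ≠ b → p a b = 1 - p b a := fun a b hab => by
    have := (hp a b hab).2
    linarith
  congr 1
  · congr 1
    · -- `h = u`
      rw [Finset.erase_insert hu', Esub_insert hv]
      have e1 : Esub S (fun t => p t u) (fun S' => if insert v S' = ∅ then
          ((if u = u then (1 : ℝ) else 0) + (if v = u then 1 else 0)) else
            W p (insert v S') u + W p (insert v S') v) =
          Esub S (fun t => 1 - p u t) (gw (p v) p) := by
        refine Esub_congr (fun t ht => ?_) fun S' hS' => ?_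
        · refine hcompl t u ?_
          rintro rfl
          exact hu ht
        · rw [if_neg (Finset.insert_ne_empty v S')]
          have hv' : v ∉ S' := fun h => hv (hS' h)
          have hu'' : u ∉ insert v S' := by
            simp only [mem_insert, not_or]
            exact ⟨huv, fun h => hu (hS' h)⟩
          rw [W_notMem p hu'', W_single hp hv', zero_add]
      have e2 : Esub S (fun t => p t u) (fun S' => if S' = ∅ then
          ((if u = u then (1 : ℝ) else 0) + (if v = u then 1 else 0)) else
            W p S' u + W p S' v) = ∏ t ∈ S, p u t := by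
        calc _ = Esub S (fun t => 1 - p u t) (fun S' => if S' = ∅ then 1 else 0) := by
              refine Esub_congr (fun t ht => ?_) fun S' hS' => ?_
              · refine hcompl t u ?_
                rintro rfl
                exact hu ht
              · by_cases h : S' = ∅
                · simp [h, huv.symm]
                · simp only [h, if_false]
                  rw [W_notMem p fun h' => hu (hS' h'), W_notMem p fun h' => hv (hS' h'), add_zero]
          _ = _ := by
              rw [Esub_ind_empty, one_mul]
              exact Finset.prod_congr rfl fun t _ => by ring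
      rw [e1, e2]
    · -- `h = v`
      have e0 : (insert u (insert v S)).erase v = insert u S := by
        rw [Finset.erase_insert_of_ne huv, Finset.erase_insert hv]
      rw [e0, Esub_insert hu]
      have e1 : Esub S (fun t => p t v) (fun S' => if insert u S' = ∅ then
          ((if u = v then (1 : ℝ) else 0) + (if v = v then 1 else 0)) else
            W p (insert u S') u + W p (insert u S') v) =
          Esub S (fun t => 1 - p v t) (gw (p u) p) := by
        refine Esub_congr (fun t ht => ?_) fun S' hS' => ?_
        · refine hcompl t v ?_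
          rintro rfl
          exact hv ht
        · rw [if_neg (Finset.insert_ne_empty u S')]
          have hu'' : u ∉ S' := fun h => hu (hS' h)
          have hv'' : v ∉ insert u S' := by
            simp only [mem_insert, not_or]
            exact ⟨huv.symm, fun h => hv (hS' h)⟩
          rw [W_notMem p hv'', W_single hp hu'', add_zero]
      have e2 : Esub S (fun t => p t v) (fun S' => if S' = ∅ then
          ((if u = v then (1 : ℝ) else 0) + (if v = v then 1 else 0)) else
            W p S' u + W p S' v) = ∏ t ∈ S, p v t := by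
        calc _ = Esub S (fun t => 1 - p v t) (fun S' => if S' = ∅ then 1 else 0) := by
              refine Esub_congr (fun t ht => ?_) fun S' hS' => ?_
              · refine hcompl t v ?_
                rintro rfl
                exact hv ht
              · by_cases h : S' = ∅
                · simp [h, huv]
                · simp only [h, if_false]
                  rw [W_notMem p fun h' => hu (hS' h'), W_notMem p fun h' => hv (hS' h'), add_zero]
          _ = _ := by
              rw [Esub_ind_empty, one_mul]
              exact Finset.prod_congr rfl fun t _ => by ring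
      rw [e1, e2]
  · refine Finset.sum_congr rfl fun w hw => ?_
    have hwu : w ≠ u := by
      rintro rfl
      exact hu hw
    have hwv : w ≠ v := by
      rintro rfl
      exact hv hw
    have hv'' : v ∉ S.erase w := fun h => hv (Finset.mem_of_mem_erase h)
    have hu'' : u ∉ insert v (S.erase w) := by
      simp only [mem_insert, not_or]
      exact ⟨huv, fun h => hu (Finset.mem_of_mem_erase h)⟩
    have hu3 : u ∉ S.erase w := fun h => hu (Finset.mem_of_mem_erase h)
    rw [Finset.erase_insert_of_ne hwu.symm, Finset.erase_insert_of_ne hwv.symm, Esub_insert hu'',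
      Esub_insert hv'', Esub_insert hv'']
    have e1 : Esub (S.erase w) (fun t => p t w) (fun S' => if insert u (insert v S') = ∅ then
        ((if u = w then (1 : ℝ) else 0) + (if v = w then 1 else 0)) else
          W p (insert u (insert v S')) u + W p (insert u (insert v S')) v) =
        Esub (S.erase w) (fun t => p t w) (V p u v) := by
      refine Esub_congr (fun _ _ => rfl) fun S' _ => ?_
      rw [if_neg (Finset.insert_ne_empty u _)]
      rfl
    have e2 : Esub (S.erase w) (fun t => p t w) (fun S' => if insert u S' = ∅ then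
        ((if u = w then (1 : ℝ) else 0) + (if v = w then 1 else 0)) else
          W p (insert u S') u + W p (insert u S') v) =
        Esub (S.erase w) (fun t => p t w) (gw (p u) p) := by
      refine Esub_congr (fun _ _ => rfl) fun S' hS' => ?_
      rw [if_neg (Finset.insert_ne_empty u _)]
      have h4 : v ∉ insert u S' := by
        simp only [mem_insert, not_or]
        exact ⟨huv.symm, fun h => hv'' (hS' h)⟩
      rw [W_notMem p h4, W_single hp fun h => hu3 (hS' h), add_zero]
    have e3 : Esub (S.erase w) (fun t => p t w) (fun S' => if insert v S' = ∅ then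
        ((if u = w then (1 : ℝ) else 0) + (if v = w then 1 else 0)) else
          W p (insert v S') u + W p (insert v S') v) =
        Esub (S.erase w) (fun t => p t w) (gw (p v) p) := by
      refine Esub_congr (fun _ _ => rfl) fun S' hS' => ?_
      rw [if_neg (Finset.insert_ne_empty v _)]
      have h4 : u ∉ insert v S' := by
        simp only [mem_insert, not_or]
        exact ⟨huv, fun h => hu3 (hS' h)⟩
      rw [W_notMem p h4, W_single hp fun h => hv'' (hS' h), zero_add]
    have e4 : Esub (S.erase w) (fun t => p t w) (fun S' => if S' = ∅ then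
        ((if u = w then (1 : ℝ) else 0) + (if v = w then 1 else 0)) else
          W p S' u + W p S' v) = 0 := by
      refine (Esub_congr (fun _ _ => rfl) fun S' hS' => ?_).trans
        (Esub_const (S.erase w) (fun t => p t w) 0)
      by_cases h : S' = ∅
      · simp [h, hwu.symm, hwv.symm]
      · simp only [h, if_false]
        rw [W_notMem p fun h' => hu3 (hS' h'), W_notMem p fun h' => hv'' (hS' h'), add_zero]
    rw [e1, e2, e3, e4]
    ring

/-- the gain of the pair satisfies a recursion with source term `Qs` -/
lemma gain_rec {p p' : Fin n → Fin n → ℝ} (hp : IsProbTournament p) (hp' : IsProbTournament p')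
    {u v : Fin n} (huv : u ≠ v)
    (hadj : ∀ i j, ¬ ((i = u ∧ j = v) ∨ (i = v ∧ j = u)) → p' i j = p i j)
    {S : Finset (Fin n)} (hu : u ∉ S) (hv : v ∉ S) :
    ((S.card : ℝ) + 2) * (V p' u v S - V p u v S) =
      (p' u v - p u v) * Qs (p u) (p v) p S +
      ∑ w ∈ S, p u w * p v w * Esub (S.erase w) (fun t => p t w)
        (fun S' => V p' u v S' - V p u v S') := by
  have hS : ∀ w ∈ S, w ≠ u ∧ w ≠ v := fun w hw => by
    constructor
    · rintro rfl
      exact hu hw
    · rintro rfl
      exact hv hw
  have hpu : ∀ w ∈ S, p' u w = p u w := fun w hw => hadj u w (by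
    rintro (⟨_, h⟩ | ⟨h, _⟩)
    · exact (hS w hw).2 h
    · exact huv h)
  have hpv : ∀ w ∈ S, p' v w = p v w := fun w hw => hadj v w (by
    rintro (⟨h, _⟩ | ⟨_, h⟩)
    · exact huv h.symm
    · exact (hS w hw).1 h)
  have hpS : ∀ t ∈ S, ∀ w ∈ S, p' t w = p t w := fun t ht w hw => hadj t w (by
    rintro (⟨h, _⟩ | ⟨h, _⟩)
    · exact (hS t ht).1 h
    · exact (hS t ht).2 h)
  have gu : ∀ S' ⊆ S, gw (p' u) p' S' = gw (p u) p S' := fun S' hS' =>
    gw_congr' (fun i hi => hpu i (hS' hi)) (fun t ht w hw _ => hpS t (hS' ht) w (hS' hw))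
  have gv : ∀ S' ⊆ S, gw (p' v) p' S' = gw (p v) p S' := fun S' hS' =>
    gw_congr' (fun i hi => hpv i (hS' hi)) (fun t ht w hw _ => hpS t (hS' ht) w (hS' hw))
  have r1 := V_rec hp huv hu hv
  have r2 := V_rec hp' huv hu hv
  have e1 : Esub S (fun t => 1 - p' u t) (gw (p' v) p') =
      Esub S (fun t => 1 - p u t) (gw (p v) p) :=
    Esub_congr (fun t ht => by rw [hpu t ht]) gv
  have e2 : Esub S (fun t => 1 - p' v t) (gw (p' u) p') =
      Esub S (fun t => 1 - p v t) (gw (p u) p) :=
    Esub_congr (fun t ht => by rw [hpv t ht]) gu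
  have e3 : ∏ t ∈ S, p' u t = ∏ t ∈ S, p u t := Finset.prod_congr rfl hpu
  have e4 : ∏ t ∈ S, p' v t = ∏ t ∈ S, p v t := Finset.prod_congr rfl hpv
  have e5 : ∑ w ∈ S, (p' u w * p' v w * Esub (S.erase w) (fun t => p' t w) (V p' u v) +
        (p' u w * (1 - p' v w) * Esub (S.erase w) (fun t => p' t w) (gw (p' u) p') +
         p' v w * (1 - p' u w) * Esub (S.erase w) (fun t => p' t w) (gw (p' v) p'))) =
      ∑ w ∈ S, (p u w * p v w * Esub (S.erase w) (fun t => p t w) (V p u v) +
        (p u w * (1 - p v w) * Esub (S.erase w) (fun t => p t w) (gw (p u) p) +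
         p v w * (1 - p u w) * Esub (S.erase w) (fun t => p t w) (gw (p v) p))) +
      ∑ w ∈ S, p u w * p v w * Esub (S.erase w) (fun t => p t w)
        (fun S' => V p' u v S' - V p u v S') := by
    rw [← Finset.sum_add_distrib]
    refine Finset.sum_congr rfl fun w hw => ?_
    have h1 : Esub (S.erase w) (fun t => p' t w) (V p' u v) =
        Esub (S.erase w) (fun t => p t w) (V p' u v) :=
      Esub_congr (fun t ht => hpS t (Finset.mem_of_mem_erase ht) w hw) fun _ _ => rfl
    have h2 : Esub (S.erase w) (fun t => p' t w) (gw (p' u) p') =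
        Esub (S.erase w) (fun t => p t w) (gw (p u) p) :=
      Esub_congr (fun t ht => hpS t (Finset.mem_of_mem_erase ht) w hw)
        fun S' hS' => gu S' (hS'.trans (Finset.erase_subset _ _))
    have h3 : Esub (S.erase w) (fun t => p' t w) (gw (p' v) p') =
        Esub (S.erase w) (fun t => p t w) (gw (p v) p) :=
      Esub_congr (fun t ht => hpS t (Finset.mem_of_mem_erase ht) w hw)
        fun S' hS' => gv S' (hS'.trans (Finset.erase_subset _ _))
    rw [h1, h2, h3, Esub_sub, hpu w hw, hpv w hw]
    ring
  rw [e1, e2, e3, e4, e5] at r2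
  rw [mul_sub, r1, r2]
  have h4 : p' v u = 1 - p' u v := by
    have := (hp' u v huv).2
    linarith
  have h5 : p v u = 1 - p u v := by
    have := (hp u v huv).2
    linarith
  unfold Qs
  rw [h4, h5]
  ring

lemma gain_empty {p p' : Fin n → Fin n → ℝ} (hp : IsProbTournament p)
    (hp' : IsProbTournament p') {u v : Fin n} (huv : u ≠ v)
    (hadj : ∀ i j, ¬ ((i = u ∧ j = v) ∨ (i = v ∧ j = u)) → p' i j = p i j) :
    V p' u v ∅ - V p u v ∅ = 0 := by
  have h := gain_rec hp hp' huv hadj (Finset.notMem_empty u) (Finset.notMem_empty v)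
  have hQ : Qs (p u) (p v) p ∅ = 0 := by
    simp [Qs, Esub_empty, gw_empty]
  rw [hQ] at h
  simp only [Finset.card_empty, Finset.sum_empty] at h
  push_cast at h
  linarith

lemma Qs_singleton {ι : Type*} [DecidableEq ι] (x y : ι → ℝ) (z : ι → ι → ℝ) (w : ι) :
    Qs x y z {w} = x w - y w := by
  have h : ∀ q : ι → ℝ, ∀ f : Finset ι → ℝ, Esub {w} q f = q w * f {w} + (1 - q w) * f ∅ := by
    intro q f
    have e : ({w} : Finset ι) = insert w ∅ := rfl
    rw [e, Esub_insert (Finset.notMem_empty w), Esub_empty, Esub_empty]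
  unfold Qs
  rw [h, h, gw_singleton, gw_singleton, gw_empty, gw_empty, Finset.prod_singleton,
    Finset.prod_singleton]
  ring

lemma gain_singleton {p p' : Fin n → Fin n → ℝ} (hp : IsProbTournament p)
    (hp' : IsProbTournament p') {u v : Fin n} (huv : u ≠ v)
    (hadj : ∀ i j, ¬ ((i = u ∧ j = v) ∨ (i = v ∧ j = u)) → p' i j = p i j)
    {w : Fin n} (hwu : w ≠ u) (hwv : w ≠ v) :
    V p' u v {w} - V p u v {w} = (p' u v - p u v) * (p u w - p v w) / 3 := by
  have h := gain_rec hp hp' huv hadj (S := {w}) (by simpa using hwu.symm)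
    (by simpa using hwv.symm)
  have h0 := gain_empty hp hp' huv hadj
  rw [Qs_singleton, Finset.sum_singleton, Finset.erase_singleton, Esub_empty, h0] at h
  simp only [Finset.card_singleton] at h
  push_cast at h
  linarith

lemma gain_bound {p p' : Fin n → Fin n → ℝ} (hp : IsProbTournament p) (hp' : IsProbTournament p')
    {u v : Fin n} (huv : u ≠ v)
    (hadj : ∀ i j, ¬ ((i = u ∧ j = v) ∨ (i = v ∧ j = u)) → p' i j = p i j)
    {η : ℝ} (hη0 : 0 ≤ η) (hη : η ≤ 1 / 2) (hp0 : ∀ i j, η ≤ p i j) (hp1 : ∀ i j, p i j ≤ 1 - η)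
    {S : Finset (Fin n)} (hu : u ∉ S) (hv : v ∉ S) :
    |V p' u v S - V p u v S| ≤ |p' u v - p u v| * ((1 - 2 * η) / 3) := by
  have hp0' : ∀ i j, 0 ≤ p i j := fun i j => hη0.trans (hp0 i j)
  have hp1' : ∀ i j, p i j ≤ 1 := fun i j => (hp1 i j).trans (by linarith)
  have hd : 0 ≤ |p' u v - p u v| := abs_nonneg _
  have hδ : 0 ≤ (1 - 2 * η) / 3 := by linarith
  induction S using Finset.strongInduction with
  | H S ih =>
    rcases Nat.lt_or_ge S.card 2 with hc | hc
    · interval_cases hcard : S.card
      · rw [Finset.card_eq_zero] at hcard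
        subst hcard
        rw [gain_empty hp hp' huv hadj, abs_zero]
        positivity
      · obtain ⟨w, rfl⟩ := Finset.card_eq_one.1 hcard
        have hwu : w ≠ u := by
          rintro rfl
          exact hu (Finset.mem_singleton_self _)
        have hwv : w ≠ v := by
          rintro rfl
          exact hv (Finset.mem_singleton_self _)
        rw [gain_singleton hp hp' huv hadj hwu hwv, mul_div_assoc, abs_mul]
        refine mul_le_mul_of_nonneg_left ?_ hd
        rw [abs_le]
        have h1 := hp0 u w
        have h2 := hp1 u w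
        have h3 := hp0 v w
        have h4 := hp1 v w
        constructor <;> linarith
    · have hpos : (0 : ℝ) < (S.card : ℝ) + 2 := by positivity
      refine le_of_mul_le_mul_left ?_ hpos
      rw [← abs_of_pos hpos, ← abs_mul, abs_of_pos hpos, gain_rec hp hp' huv hadj hu hv]
      have hQ : |Qs (p u) (p v) p S| ≤
          (1 - 2 * η) / 3 * (2 + ∑ i ∈ S, (1 - p u i * p v i)) := by
        rw [abs_le]
        constructor
        · have h1 := Qs_bound (z := p) hη0 hη (hp0 v) (hp1 v) (hp0 u) (hp1 u) hp0 hp1 hc
          rw [Qs_swap] at h1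
          have h2 : ∑ i ∈ S, (1 - p v i * p u i) = ∑ i ∈ S, (1 - p u i * p v i) :=
            Finset.sum_congr rfl fun i _ => by ring
          rw [h2] at h1
          linarith
        · exact Qs_bound (z := p) hη0 hη (hp0 u) (hp1 u) (hp0 v) (hp1 v) hp0 hp1 hc
      have hsum : |∑ w ∈ S, p u w * p v w * Esub (S.erase w) (fun t => p t w)
          (fun S' => V p' u v S' - V p u v S')| ≤
          ∑ w ∈ S, p u w * p v w * (|p' u v - p u v| * ((1 - 2 * η) / 3)) := by
        refine (Finset.abs_sum_le_sum_abs _ _).trans (Finset.sum_le_sum fun w hw => ?_)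
        rw [abs_mul, abs_of_nonneg (mul_nonneg (hp0' u w) (hp0' v w))]
        refine mul_le_mul_of_nonneg_left ?_ (mul_nonneg (hp0' u w) (hp0' v w))
        calc _ ≤ Esub (S.erase w) (fun t => p t w)
              (fun _ => |p' u v - p u v| * ((1 - 2 * η) / 3)) := by
              refine Esub_abs_le (fun _ _ => hp0' _ _) (fun _ _ => hp1' _ _) fun S' hS' => ?_
              have hlt := lt_of_le_of_lt hS' (Finset.erase_ssubset hw)
              exact ih S' hlt (fun h => hu (hlt.1 h)) (fun h => hv (hlt.1 h))
          _ = _ := Esub_const _ _ _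
      have h1 : |(p' u v - p u v) * Qs (p u) (p v) p S| ≤
          |p' u v - p u v| * ((1 - 2 * η) / 3 * (2 + ∑ i ∈ S, (1 - p u i * p v i))) := by
        rw [abs_mul]
        exact mul_le_mul_of_nonneg_left hQ hd
      refine (abs_add_le _ _).trans ((add_le_add h1 hsum).trans (le_of_eq ?_))
      rw [← Finset.sum_mul, Finset.sum_sub_distrib, Finset.sum_const, nsmul_eq_mul]
      ring

/-- replacing the diagonal values by `1/2` -/
noncomputable def fixDiag (p : Fin n → Fin n → ℝ) : Fin n → Fin n → ℝ :=
  fun i j => if i = j then 1 / 2 else p i j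

lemma fixDiag_ne (p : Fin n → Fin n → ℝ) {i j : Fin n} (h : i ≠ j) : fixDiag p i j = p i j := by
  simp [fixDiag, h]

lemma fixDiag_isProb {p : Fin n → Fin n → ℝ} (hp : IsProbTournament p) :
    IsProbTournament (fixDiag p) := by
  intro i j hij
  rw [fixDiag_ne p hij, fixDiag_ne p hij.symm]
  exact hp i j hij

lemma sel_fixDiag (p : Fin n → Fin n → ℝ) (i : Fin n) : sel (fixDiag p) i = sel p i := by
  unfold sel
  refine Finset.sum_congr rfl fun ω _ => ?_
  congr 1
  unfold prob
  refine Finset.prod_congr rfl fun e _ => ?_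
  have h1 : e.1.1 ≠ e.1.2 := ne_of_lt e.2
  rw [fixDiag_ne p h1, fixDiag_ne p h1.symm]

lemma sel_eq_W (p : Fin n → Fin n → ℝ) (i : Fin n) : sel p i = W p Finset.univ i := by
  unfold sel W Ex ExW prob wt
  rfl

lemma sel_pair (p : Fin n → Fin n → ℝ) {u v : Fin n} (huv : u ≠ v) :
    sel p u + sel p v = V p u v ((Finset.univ.erase u).erase v) := by
  have h : insert u (insert v ((Finset.univ.erase u).erase v)) = (Finset.univ : Finset (Fin n)) := by
    rw [Finset.insert_erase (Finset.mem_erase.2 ⟨huv.symm, Finset.mem_univ v⟩),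
      Finset.insert_erase (Finset.mem_univ u)]
  unfold V
  rw [h, sel_eq_W, sel_eq_W]

end Link

/-- **Main theorem.** For every `ε ∈ [0, 1/2]`, the supremum of the gains of pairs of teams under
Randomized King of the Hill on probabilistic tournaments with win probabilities in
`[1/2 - ε, 1/2 + ε]` is `ε / 3 + 2 ε ^ 2 / 3`, and it is attained. -/
theorem result : ∀ ε : ℝ, 0 ≤ ε → ε ≤ 1 / 2 → IsGreatest (gains ε) (ε / 3 + 2 * ε ^ 2 / 3) := by
  intro ε hε0 hε
  constructor
  · -- attained for three teams
    set p : Fin 3 → Fin 3 → ℝ := ![![1 / 2, 1 / 2 - ε, 1 / 2 + ε], ![1 / 2 + ε, 1 / 2, 1 / 2 - ε],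
      ![1 / 2 - ε, 1 / 2 + ε, 1 / 2]] with hpdef
    set p' : Fin 3 → Fin 3 → ℝ := ![![1 / 2, 1, 1 / 2 + ε], ![0, 1 / 2, 1 / 2 - ε],
      ![1 / 2 - ε, 1 / 2 + ε, 1 / 2]] with hpdef'
    have hp : IsProbTournament p := by
      intro i j hij
      fin_cases i <;> fin_cases j <;> simp [hpdef] at hij ⊢ <;> constructor <;> linarith
    have hp' : IsProbTournament p' := by
      intro i j hij
      fin_cases i <;> fin_cases j <;> simp [hpdef'] at hij ⊢ <;> constructor <;> linarith
    have hadj : ∀ i j, ¬ ((i = (0 : Fin 3) ∧ j = 1) ∨ (i = 1 ∧ j = 0)) → p' i j = p i j := by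
      intro i j hij
      fin_cases i <;> fin_cases j <;> simp [hpdef, hpdef'] at hij ⊢
    have huv : (0 : Fin 3) ≠ 1 := by decide
    refine ⟨3, by norm_num, p, p', 0, 1, huv, hp, ?_, hp', fun i j _ h => hadj i j h, ?_⟩
    · intro i j hij
      fin_cases i <;> fin_cases j <;> simp [hpdef] at hij ⊢ <;> linarith
    · have h1 := sel_pair p huv
      have h2 := sel_pair p' huv
      have h3 : ((Finset.univ : Finset (Fin 3)).erase 0).erase 1 = {2} := by decide
      rw [h3] at h1 h2
      have h4 := gain_singleton hp hp' huv hadj (w := 2) (by decide) (by decide)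
      have h5 : p' 0 1 = 1 := rfl
      have h6 : p 0 1 = 1 / 2 - ε := rfl
      have h7 : p 0 2 = 1 / 2 + ε := rfl
      have h8 : p 1 2 = 1 / 2 - ε := rfl
      rw [h5, h6, h7, h8] at h4
      have h9 : sel p' 0 + sel p' 1 - sel p 0 - sel p 1 = V p' 0 1 {2} - V p 0 1 {2} := by
        linarith
      rw [h9, h4]
      ring
  · rintro a ⟨n, _, p, p', u, v, huv, hp, hbox, hp', hadj, rfl⟩
    have hq := fixDiag_isProb hp
    have hq' := fixDiag_isProb hp'
    have hadj' : ∀ i j, ¬ ((i = u ∧ j = v) ∨ (i = v ∧ j = u)) →
        fixDiag p' i j = fixDiag p i j := by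
      intro i j hij
      by_cases h : i = j
      · simp [fixDiag, h]
      · rw [fixDiag_ne p h, fixDiag_ne p' h]
        exact hadj i j h hij
    have hb0 : ∀ i j, 1 / 2 - ε ≤ fixDiag p i j := by
      intro i j
      by_cases h : i = j
      · simp only [fixDiag, h, if_true]
        linarith
      · rw [fixDiag_ne p h]
        exact (hbox i j h).1
    have hb1 : ∀ i j, fixDiag p i j ≤ 1 - (1 / 2 - ε) := by
      intro i j
      by_cases h : i = j
      · simp only [fixDiag, h, if_true]
        linarith
      · rw [fixDiag_ne p h]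
        have := (hbox i j h).2
        linarith
    set S := (Finset.univ.erase u).erase v with hS
    have huS : u ∉ S := by simp [hS]
    have hvS : v ∉ S := by simp [hS]
    have h1 := gain_bound hq hq' huv hadj' (η := 1 / 2 - ε) (by linarith) (by linarith) hb0 hb1
      huS hvS
    have h2 := sel_pair (fixDiag p) huv
    have h3 := sel_pair (fixDiag p') huv
    rw [sel_fixDiag, sel_fixDiag] at h2 h3
    have h4 : |fixDiag p' u v - fixDiag p u v| ≤ 1 / 2 + ε := by
      rw [fixDiag_ne p huv, fixDiag_ne p' huv]
      have h5 := hbox u v huv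
      have h6 := hp' u v huv
      have h7 := hp' v u huv.symm
      rw [abs_le]
      constructor
      · linarith [h5.2, h6.1]
      · linarith [h5.1, h6.2, h7.1]
    have h5 : V (fixDiag p') u v S - V (fixDiag p) u v S ≤
        |fixDiag p' u v - fixDiag p u v| * ((1 - 2 * (1 / 2 - ε)) / 3) :=
      (le_abs_self _).trans h1
    have h6 : |fixDiag p' u v - fixDiag p u v| * ((1 - 2 * (1 / 2 - ε)) / 3) ≤
        (1 / 2 + ε) * ((1 - 2 * (1 / 2 - ε)) / 3) :=
      mul_le_mul_of_nonneg_right h4 (by linarith)
    have h7 : (1 / 2 + ε) * ((1 - 2 * (1 / 2 - ε)) / 3) = ε / 3 + 2 * ε ^ 2 / 3 := by ring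
    linarith

end Pool.Agent.Results.MP_4400a6_co.KingOfHill
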